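import Pool.Agent.J6H49.SY.Defs2
import Pool.Agent.J6H28.SY.Inst

/-!
# Module INST2 of project SY of helper49: the formulas of systems of equations
-/

set_option autoImplicit false

namespace Pool.Agent.J6H78.SY

open Pool.Agent.J6H49.SY
open Pool.Agent.J6H28.SY (s0 s0_pos s0_sq p0 p0_ne)

variable {ι : Type} {m n q : ℕ}

open Classical in
theorem X2_iff (f : Fin q → Fin 3 → Fin n) (ε : Fin n × Fin 3 ↪ ι) (b : Fin q → Bool)
    (c : Clause ι m) : X2 f ε b c = true ↔ IsCl2 f ε b c := by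
  unfold X2
  exact decide_eq_true_iff

theorem X2_eq (f : Fin q → Fin 3 → Fin n) (ε : Fin n × Fin 3 ↪ ι) (b b' : Fin q → Bool)
    (c c' : Clause ι m) (h : IsCl2 f ε b c ↔ IsCl2 f ε b' c') : X2 f ε b c = X2 f ε b' c' := by
  rw [Bool.eq_iff_iff, X2_iff, X2_iff]
  exact h

open Classical in
/-- exchange of the positions `0` and `1` in the blocks of the variables in `y` -/
noncomputable def sy (ε : Fin n × Fin 3 ↪ ι) (y : Fin n × Fin 3 → Bool) : ι → A5 := fun i =>
  if ∃ e, ε e = i ∧ y e = true then s0 else 1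

theorem sy_of_false (ε : Fin n × Fin 3 ↪ ι) (y : Fin n × Fin 3 → Bool) (i : ι)
    (h : ∀ e, ε e = i → y e = false) : sy ε y i = 1 := by
  unfold sy
  rw [if_neg]
  rintro ⟨e, he, hy⟩
  rw [h e he] at hy
  exact Bool.noConfusion hy

theorem sy_apply (ε : Fin n × Fin 3 ↪ ι) (y : Fin n × Fin 3 → Bool) (e : Fin n × Fin 3) :
    sy ε y (ε e) = if y e then s0 else 1 := by
  unfold sy
  by_cases h : y e = true
  · rw [if_pos ⟨e, rfl, h⟩, if_pos h]
  · rw [if_neg, if_neg h]
    rintro ⟨e', he', hy⟩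
    rw [ε.injective he'] at hy
    exact h hy

theorem sy_sq (ε : Fin n × Fin 3 ↪ ι) (y : Fin n × Fin 3 → Bool) : sy ε y * sy ε y = 1 := by
  funext i
  show sy ε y i * sy ε y i = 1
  unfold sy
  split_ifs
  · exact s0_sq
  · exact one_mul 1

theorem mv_sy (ε : Fin n × Fin 3 ↪ ι) (y : Fin n × Fin 3 → Bool) (e : Fin n × Fin 3) (x : Bool) :
    mv (m := m) (sy ε y) (Sum.inl (ε e, pos x)) = Sum.inl (ε e, pos (x ^^ y e)) := by
  show Sum.inl (ε e, ((sy ε y (ε e) : A5) : Equiv.Perm (Fin 5)) (pos x)) = _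
  rw [sy_apply]
  cases h : y e
  · rw [Bool.xor_false]
    rfl
  · rw [Bool.xor_true, ← s0_pos]
    rfl

theorem step2 (f : Fin q → Fin 3 → Fin n) (ε : Fin n × Fin 3 ↪ ι) (b : Fin q → Bool)
    (y : Fin n × Fin 3 → Bool) (c : Clause ι m) (hc : IsCl2 f ε b c) :
    IsCl2 f ε (add f b y) (mc (sy ε y) c) := by
  obtain ⟨v, τ, g, hc, hp⟩ := hc
  refine ⟨v, fun t => τ t ^^ y (f v t, t), g, fun t => ?_, ?_⟩
  · show (mv _ (c t).1, (c t).2) = _
    rw [hc t, mv_sy]
  · show _ = (b v ^^ ((y (f v 0, 0) ^^ y (f v 1, 1)) ^^ y (f v 2, 2)))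
    rw [← hp]
    unfold par
    beta_reduce
    generalize τ 0 = a0
    generalize τ 1 = a1
    generalize τ 2 = a2
    generalize g 0 = g0
    generalize g 1 = g1
    generalize g 2 = g2
    generalize y (f v 0, 0) = y0
    generalize y (f v 1, 1) = y1
    generalize y (f v 2, 2) = y2
    revert a0 a1 a2 g0 g1 g2 y0 y1 y2
    decide

theorem add_add (f : Fin q → Fin 3 → Fin n) (b : Fin q → Bool) (y : Fin n × Fin 3 → Bool) :
    add f (add f b y) y = b := by
  funext v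
  show ((b v ^^ ((y (f v 0, 0) ^^ y (f v 1, 1)) ^^ y (f v 2, 2))) ^^
    ((y (f v 0, 0) ^^ y (f v 1, 1)) ^^ y (f v 2, 2))) = b v
  rw [Bool.xor_assoc, Bool.xor_self, Bool.xor_false]

theorem part_one (f : Fin q → Fin 3 → Fin n) (ε : Fin n × Fin 3 ↪ ι)
    (y : Fin n × Fin 3 → Bool) (b : Fin q → Bool) :
    act (sy ε y) (X2 (m := m) f ε b) = X2 f ε (add f b y) := by
  funext c
  unfold act
  apply X2_eq
  constructor
  · intro hc
    have h := step2 f ε b y _ hc
    rwa [← mc_mul, sy_sq, mc_one] at h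
  · intro hc
    have h := step2 f ε _ y _ hc
    rwa [add_add] at h

theorem part_two (f : Fin q → Fin 3 → Fin n) (ε : Fin n × Fin 3 ↪ ι) :
    Sat (X2 (m := m) f ε fun _ => false) := by
  refine ⟨fun w => Sum.elim (fun p => decide (p.2 = 1)) (fun _ => false) w, fun c hc => ?_⟩
  have hpos : ∀ x : Bool, decide (pos x = 1) = x := by
    intro x; cases x <;> decide
  have hc' : IsCl2 f ε (fun _ => false) c := (X2_iff f ε _ c).1 hc
  obtain ⟨v, τ, g, hc, hp⟩ := hc'
  by_contra hcon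
  push Not at hcon
  have h1 : ∀ t, τ t = !g t := by
    intro t
    have h2 := hcon t
    rw [hc t] at h2
    change decide (pos (τ t) = 1) ≠ g t at h2
    rw [hpos] at h2
    cases h3 : τ t <;> cases h4 : g t <;> simp_all
  unfold par at hp
  rw [h1 0, h1 1, h1 2] at hp
  revert hp
  cases g 0 <;> cases g 1 <;> cases g 2 <;> simp

theorem part_three [Fintype ι] [DecidableEq ι] (f : Fin q → Fin 3 → Fin n) (ε : Fin n × Fin 3 ↪ ι)
    (K : Finset ι) (c : Clause ι m) (hfix : ∀ γ : ι → A5, (∀ i ∈ K, γ i = 1) → mc γ c = c)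
    (γ δ : ι → A5) (hγδ : ∀ i ∈ K, γ i = δ i) (b b' : Fin q → Bool)
    (hb : ∀ v, (∀ t, ε (f v t, t) ∈ K) → b v = b' v) :
    act γ (X2 f ε b) c = act δ (X2 f ε b') c := by
  -- the variables are in the blocks of `K`
  have hK : ∀ k i j, (c k).1 = Sum.inl (i, j) → i ∈ K := by
    intro k i j h
    by_contra hi
    have h1 := congrFun (hfix (Pi.mulSingle i p0) (fun i' hi' => by
      apply Pi.mulSingle_eq_of_ne
      rintro rfl
      exact hi hi')) k
    have h2 : mv (Pi.mulSingle i p0) (c k).1 = (c k).1 := congrArg Prod.fst h1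
    rw [h] at h2
    have h3 : (i, ((Pi.mulSingle i p0 : ι → A5) i : Equiv.Perm (Fin 5)) j) = (i, j) :=
      Sum.inl.inj h2
    rw [Pi.mulSingle_eq_same] at h3
    exact p0_ne j (congrArg Prod.snd h3)
  have hcc : mc γ c = mc δ c := by
    funext k
    show (mv γ (c k).1, (c k).2) = (mv δ (c k).1, (c k).2)
    rcases h : (c k).1 with ⟨i, j⟩ | w
    · have : mv (m := m) γ (Sum.inl (i, j)) = mv δ (Sum.inl (i, j)) := by
        simp only [mv, Sum.map_inl]
        rw [hγδ i (hK k i j h)]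
      rw [this]
    · rfl
  have hK' : ∀ k i j, (mc δ c k).1 = Sum.inl (i, j) → i ∈ K := by
    intro k i j h
    have h' : mv δ (c k).1 = Sum.inl (i, j) := h
    rcases h1 : (c k).1 with ⟨i', j'⟩ | w
    · rw [h1] at h'
      have h2 := Sum.inl.inj h'
      have h3 : i' = i := congrArg Prod.fst h2
      exact h3 ▸ hK k i' j' h1
    · rw [h1] at h'
      exact absurd h' (by simp [mv])
  unfold act
  rw [hcc]
  apply X2_eq
  have key : ∀ b b' : Fin q → Bool, (∀ v, (∀ t, ε (f v t, t) ∈ K) → b v = b' v) →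
      IsCl2 f ε b (mc δ c) → IsCl2 f ε b' (mc δ c) := by
    intro b b' hbb hc
    obtain ⟨v, τ, g, hc, hp⟩ := hc
    refine ⟨v, τ, g, hc, ?_⟩
    rw [hp]
    apply hbb
    intro t
    apply hK' t _ (pos (τ t))
    rw [hc t]
  exact ⟨key b b' hb, key b' b fun v hv => (hb v hv).symm⟩

theorem main2 : S_INST2 := fun _ _ _ _ _ _ f ε =>
  ⟨⟨s0, fun y => ⟨sy ε y, sy_of_false ε y, sy_apply ε y, part_one f ε y⟩⟩, part_two f ε,
    fun K c hfix γ δ h b b' hb => part_three f ε K c hfix γ δ h b b' hb⟩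

end Pool.Agent.J6H78.SY
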